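import Pool.Agent.Helper74.LF.P.HW0

/-!
# Packet LF-HC (MP_cc6379_al): commuting parabolic subgroups
-/

set_option autoImplicit false

open LaurentPolynomial Pool.Agent.Helper15.RA Pool.Agent.Helper45.AM Pool.Agent.Helper74.LF

noncomputable section

namespace Pool.Agent.Helper33.LF.HC

section cox

variable {S W : Type} [Group W] {M : CoxeterMatrix S} (cs : CoxeterSystem M W)

theorem simple_mem {P : Set S} {i : S} (hi : i ∈ P) : cs.simple i ∈ par cs P :=
  Subgroup.subset_closure ⟨i, hi, rfl⟩

theorem par_mono {P Q : Set S} (h : P ⊆ Q) : par cs P ≤ par cs Q :=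
  Subgroup.closure_mono (Set.image_mono h)

/-- `s_i` commutes with `W_J` if it commutes with all `s_j`, `j ∈ J`. -/
theorem comm_par {J : Set S} {i : S}
    (h : ∀ j ∈ J, cs.simple i * cs.simple j = cs.simple j * cs.simple i) :
    ∀ y ∈ par cs J, cs.simple i * y = y * cs.simple i := by
  have hle : par cs J ≤ Subgroup.centralizer {cs.simple i} := by
    refine (Subgroup.closure_le _).2 ?_
    rintro _ ⟨j, hj, rfl⟩
    rw [SetLike.mem_coe, Subgroup.mem_centralizer_iff]
    intro u hu
    rw [Set.mem_singleton_iff] at hu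
    subst hu
    exact h j hj
  intro y hy
  exact Subgroup.mem_centralizer_iff.1 (hle hy) _ rfl

theorem par_insert {J : Set S} {i : S} (hc : ∀ y ∈ par cs J, cs.simple i * y = y * cs.simple i) :
    ∀ k ∈ par cs (insert i J), k ∈ par cs J ∨ k * cs.simple i ∈ par cs J := by
  intro k hk
  have hss : cs.simple i * cs.simple i = 1 := cs.simple_mul_simple_self i
  refine Subgroup.closure_induction
    (p := fun k _ => k ∈ par cs J ∨ k * cs.simple i ∈ par cs J) ?_ ?_ ?_ ?_ hk
  · rintro _ ⟨j, hj, rfl⟩
    rcases hj with rfl | hj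
    · right
      rw [hss]
      exact one_mem _
    · left
      exact simple_mem cs hj
  · left
    exact one_mem _
  · intro x y _ _ hx hy
    rcases hx with hx | hx <;> rcases hy with hy | hy
    · left
      exact mul_mem hx hy
    · right
      rw [mul_assoc]
      exact mul_mem hx hy
    · right
      have e : x * y * cs.simple i = x * cs.simple i * y := by
        rw [mul_assoc, mul_assoc, hc y hy]
      rw [e]
      exact mul_mem hx hy
    · left
      have e : x * y = x * cs.simple i * (y * cs.simple i) := by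
        have h1 : y = cs.simple i * (y * cs.simple i) := by
          rw [hc _ hy, mul_assoc, hss, mul_one]
        conv_lhs => rw [h1]
        rw [← mul_assoc]
      rw [e]
      exact mul_mem hx hy
  · intro x _ hx
    rcases hx with hx | hx
    · left
      exact inv_mem hx
    · right
      have h1 := hc _ (inv_mem hx)
      rw [mul_inv_rev, cs.inv_simple, ← mul_assoc, hss, one_mul] at h1
      have e : x⁻¹ * cs.simple i = (x * cs.simple i)⁻¹ := by
        rw [mul_inv_rev, cs.inv_simple]
        conv_lhs => rw [h1]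
        rw [mul_assoc, hss, mul_one]
      rw [e]
      exact inv_mem hx

end cox

variable {S W H : Type} [Group W] [Ring H] [Algebra ℤ[T;T⁻¹] H]

theorem one_le_L (X : Base S W H) (i : S) : 1 ≤ X.L (X.cs.simple i) := by
  apply X.wt.pos
  intro e
  have := X.cs.length_simple i
  rw [e, X.cs.length_one] at this
  omega

/-- `c_s c_x = c_(s x)` if `x ∈ W_P`, `s ∉ P` -/
theorem c_simple_mul (X : Base S W H) (P : Set S) (i : S) (hi : i ∉ P) (x : W)
    (hx : x ∈ par X.cs P) :
    X.D.c (X.cs.simple i) * X.D.c x = X.D.c (X.cs.simple i * x) := by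
  classical
  obtain ⟨-, -, -, h4, -, h6, h7, -, h9, -⟩ := g_h2 S W H X.M X.cs X.L X.wt X.D
  obtain ⟨-, -, hB4, -⟩ := (Pool.Agent.Helper15.AM.k_gpb S W X.M X.cs).2 P
  have hLs := one_le_L X i
  have hout : ∀ z, z ∉ par X.cs P → X.D.t.repr (X.D.c x) z = 0 := by
    intro z hz
    by_contra hh
    exact hz ((Pool.Agent.Helper15.AM.k_as S W H X P).2.2.2.1 x hx z hh)
  have hdeg : ∀ z, DegLE 0 (X.D.t.repr (X.D.c x) z) := by
    intro z
    by_cases hz : z = x
    · subst hz
      rw [h4]
      exact DegLE.one le_rfl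
    · exact (h6 x z hz).mono (by norm_num)
  apply h7
  · rw [map_mul, X.D.bar_c, X.D.bar_c]
  · intro z
    have e : X.D.t.repr (X.D.c (X.cs.simple i) * X.D.c x - X.D.t (X.cs.simple i * x)) z =
        (X.D.t.repr (X.D.c x) (X.cs.simple i * z) - (if X.cs.simple i * x = z then 1 else 0)) +
        (T (-(X.L (X.cs.simple i) : ℤ)) * X.D.t.repr (X.D.c x) z +
        (if X.cs.length (X.cs.simple i * z) < X.cs.length z then xi (X.L (X.cs.simple i)) else 0) *
          X.D.t.repr (X.D.c x) z) := by
      rw [h9 i, add_mul, smul_mul_assoc, one_mul, map_sub, map_add, map_smul, Finsupp.sub_apply,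
        Finsupp.add_apply, Finsupp.smul_apply, smul_eq_mul, C_HW0.repr_ts X i,
        Module.Basis.repr_self, Finsupp.single_apply]
      ring
    rw [e]
    refine DegLE.add ?_ (DegLE.add ?_ ?_)
    · by_cases hz : X.cs.simple i * x = z
      · subst hz
        rw [if_pos rfl, X.cs.simple_mul_simple_cancel_left, h4, sub_self]
        exact DegLE.zero _
      · rw [if_neg hz, sub_zero]
        refine h6 x _ fun hz' => hz ?_
        rw [← hz', X.cs.simple_mul_simple_cancel_left]
    · exact (DegLE.T_le le_rfl).mul_le (hdeg z) (by omega)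
    · split_ifs with hl
      · have hz : z ∉ par X.cs P := fun hz => hi (hB4 z hz i hl)
        rw [hout z hz, mul_zero]
        exact DegLE.zero _
      · rw [zero_mul]
        exact DegLE.zero _

/-- `c_x c_s = c_(x s)` if `x ∈ W_P`, `s ∉ P` -/
theorem c_mul_simple (X : Base S W H) (P : Set S) (i : S) (hi : i ∉ P) (x : W)
    (hx : x ∈ par X.cs P) :
    X.D.c x * X.D.c (X.cs.simple i) = X.D.c (x * X.cs.simple i) := by
  obtain ⟨⟨F, -, hF2, hF3, -⟩, -⟩ := Pool.Agent.Helper15.AM.k_am S W H X
  have h := congrArg F (c_simple_mul X P i hi x⁻¹ (inv_mem hx))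
  rw [hF2, hF3, hF3, hF3, inv_inv, X.cs.inv_simple, mul_inv_rev, inv_inv, X.cs.inv_simple] at h
  exact h

theorem main (hKD2 : KD2) (X : Base S W H) (I : Set S) (hI : Cm X.M I) :
    ∀ n, ∀ g ∈ par X.cs I, X.cs.length g = n →
    (∃ J : Set S, J ⊆ I ∧ g ∈ par X.cs J ∧ (∀ j ∈ J, X.cs.IsRightDescent g j) ∧
      ∀ k ∈ par X.cs J, X.L k ≤ X.L g) ∧
    ∃ δ : ℤ[T;T⁻¹], DegLE (X.L g) δ ∧ δ.coeff (X.L g : ℤ) = 1 ∧
      X.D.c g * X.D.c g = δ • X.D.c g := by
  obtain ⟨-, -, -, -, -, -, -, hc1, -, h10⟩ := g_h2 S W H X.M X.cs X.L X.wt X.D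
  obtain ⟨-, -, -, -, k5, -, -, -, -, -, k11⟩ := hKD2 S W X.M X.cs
  have hL1 : X.L 1 = 0 := by
    have := X.wt.add 1 1 (by rw [mul_one, X.cs.length_one])
    rw [mul_one] at this
    omega
  intro n
  induction n with
  | zero =>
    intro g _ hl
    rw [X.cs.length_eq_zero_iff] at hl
    subst hl
    refine ⟨⟨∅, Set.empty_subset _, one_mem _, fun j hj => absurd hj (Set.notMem_empty _), ?_⟩,
      1, ?_, ?_, ?_⟩
    · intro k hk
      have hk1 : k = 1 := by
        unfold par at hk
        rwa [Set.image_empty, Subgroup.closure_empty, Subgroup.mem_bot] at hk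
      rw [hk1]
    · exact DegLE.one (by positivity)
    · rw [hL1, ← T_zero, T_apply, if_pos (by simp)]
    · rw [hc1, mul_one, one_smul]
  | succ n ih =>
    intro g hg hl
    have hne : g ≠ 1 := by
      rintro rfl
      rw [X.cs.length_one] at hl
      omega
    obtain ⟨i, hi⟩ := X.cs.exists_rightDescent_of_ne_one hne
    have hiI : i ∈ I := ((Pool.Agent.Helper15.AM.k_gpb S W X.M X.cs).2 I).2.1 g hg i hi
    have hgg : g * X.cs.simple i * X.cs.simple i = g := X.cs.simple_mul_simple_cancel_right i
    have hil := X.cs.isRightDescent_iff.1 hi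
    obtain ⟨⟨J', hJI, hgJ, hJd, hJL⟩, δ, hδ1, hδ2, hδ3⟩ := ih (g * X.cs.simple i)
      (mul_mem hg (simple_mem X.cs hiI)) (by omega)
    set g' := g * X.cs.simple i with hg'
    have hiJ : i ∉ J' := by
      intro h
      have h1 : X.cs.length (g' * X.cs.simple i) < X.cs.length g' := hJd i h
      rw [hgg] at h1
      omega
    have hnd : ¬ X.cs.IsRightDescent g' i := by
      intro h1
      have h2 : X.cs.length (g' * X.cs.simple i) < X.cs.length g' := h1
      rw [hgg] at h2
      omega
    have hM : ∀ j ∈ J', X.M i j = 2 := fun j hj => hI i hiI j (hJI hj) fun e => hiJ (e ▸ hj)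
    have hcomm : ∀ y ∈ par X.cs J', X.cs.simple i * y = y * X.cs.simple i :=
      comm_par X.cs fun j hj => k11 i j (hM j hj)
    have hLadd : ∀ k ∈ par X.cs J', X.L (k * X.cs.simple i) = X.L k + X.L (X.cs.simple i) := by
      intro k hk
      apply X.wt.add
      rw [X.cs.length_simple]
      by_contra hh
      rcases X.cs.length_mul_simple k i with h1 | h1
      · exact hh h1
      · exact hiJ (((Pool.Agent.Helper15.AM.k_gpb S W X.M X.cs).2 J').2.1 k hk i (by omega))
    have hLg : X.L g = X.L g' + X.L (X.cs.simple i) := by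
      have h1 := hLadd g' hgJ
      rwa [hgg] at h1
    have hcg1 : X.D.c g = X.D.c g' * X.D.c (X.cs.simple i) := by
      rw [c_mul_simple X J' i hiJ g' hgJ, hgg]
    have hcg2 : X.D.c g = X.D.c (X.cs.simple i) * X.D.c g' := by
      rw [c_simple_mul X J' i hiJ g' hgJ, hcomm g' hgJ, hgg]
    refine ⟨⟨insert i J', ?_, ?_, ?_, ?_⟩, dl (X.L (X.cs.simple i)) * δ, ?_, ?_, ?_⟩
    · exact Set.insert_subset hiI hJI
    · rw [← hgg]
      exact mul_mem (par_mono X.cs (Set.subset_insert _ _) hgJ)
        (simple_mem X.cs (Set.mem_insert _ _))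
    · intro j hj
      rcases hj with rfl | hj
      · exact hi
      · have h1 := k5 i j g' (hM j hj) hnd (hJd j hj)
        rwa [hgg] at h1
    · intro k hk
      rcases par_insert X.cs hcomm k hk with h1 | h1
      · have := hJL k h1
        omega
      · have h2 := hJL _ h1
        have h3 := hLadd _ h1
        rw [X.cs.simple_mul_simple_cancel_right] at h3
        omega
    · rw [hLg]
      refine (DegLE.dl (X.L (X.cs.simple i))).mul_le hδ1 ?_
      push_cast
      omega
    · have h1 := coeff_mul_top (DegLE.dl (X.L (X.cs.simple i))) hδ1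
      have h2 : (dl (X.L (X.cs.simple i))).coeff (X.L (X.cs.simple i) : ℤ) = 1 := by
        have h3 := one_le_L X i
        rw [dl, AddMonoidAlgebra.coeff_add, Finsupp.add_apply, T_apply, T_apply, if_pos rfl,
          if_neg (by omega), add_zero]
      rw [hδ2, h2, mul_one] at h1
      rw [hLg]
      have h4 : ((X.L g' + X.L (X.cs.simple i) : ℕ) : ℤ) =
          (X.L (X.cs.simple i) : ℤ) + (X.L g' : ℤ) := by
        push_cast
        ring
      rw [h4]
      exact h1
    · calc X.D.c g * X.D.c g
          = X.D.c g' * X.D.c (X.cs.simple i) * (X.D.c (X.cs.simple i) * X.D.c g') := by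
            rw [← hcg1, ← hcg2]
        _ = X.D.c g' * (X.D.c (X.cs.simple i) * X.D.c (X.cs.simple i)) * X.D.c g' := by
            simp only [mul_assoc]
        _ = dl (X.L (X.cs.simple i)) • (X.D.c g' * X.D.c (X.cs.simple i) * X.D.c g') := by
            rw [h10 i, mul_smul_comm, smul_mul_assoc]
        _ = dl (X.L (X.cs.simple i)) • (X.D.c (X.cs.simple i) * (X.D.c g' * X.D.c g')) := by
            rw [← hcg1, hcg2, mul_assoc]
        _ = (dl (X.L (X.cs.simple i)) * δ) • X.D.c g := by
            rw [hδ3, mul_smul_comm, smul_smul, ← hcg2]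

theorem t (hKD2 : KD2) (hHPB : HPB) : Pool.Agent.Helper74.LF.HC := by
  classical
  intro S W H _ _ _ X I g hI hg
  obtain ⟨hJ, δ, hδ1, hδ2, hδ3⟩ := main hKD2 X.toBase I hI _ g hg rfl
  refine ⟨?_, hJ⟩
  obtain ⟨-, -, -, h4, -⟩ := g_h2 S W H X.M X.cs X.L X.wt X.D
  have hpg := X.pg I (Or.inl hI)
  apply le_antisymm
  · have h1 := hHPB S W H X I g g (Or.inl hI) hg hg
    rw [h4] at h1
    by_contra hc
    have h2 := h1 0 (by omega)
    rw [← T_zero, T_apply, if_pos rfl] at h2
    exact one_ne_zero h2
  · have h1 := hpg.deg g hg g hg g hg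
    have h2 : X.h g g g = δ := by
      rw [← X.repr_mul_c, hδ3, map_smul, Finsupp.smul_apply, ← X.hb, Module.Basis.repr_self,
        Finsupp.single_apply, if_pos rfl, smul_eq_mul, mul_one]
    rw [h2] at h1
    by_contra hc
    have h3 := h1 (X.L g : ℤ) (by omega)
    rw [hδ2] at h3
    exact one_ne_zero h3

end Pool.Agent.Helper33.LF.HC
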